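import Pool.Agent.Y957.VK.Fin2
import Pool.Agent.Y957.VK.NegLam

/-!
# Liouville correlations along almost all tuples of Beatty sequences, with a rate

For almost every `(α₁, …, α_k)` with positive coordinates and every `K`,
`∑_{n ≤ N} λ(n) λ(⌊α₁ n⌋) ⋯ λ(⌊α_k n⌋) = o (N / (log N) ^ K)`; more generally the factors
`λ(⌊α_i n⌋)` may be replaced by `a_i (⌊α_i n⌋)` for arbitrary bounded sequences `a_i`.
-/

set_option autoImplicit false

namespace Pool.Agent.Results.MP_67663b_nt.AlmostEveryTupleCesaro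

open Filter Topology MeasureTheory

/-- the Liouville function -/
noncomputable def lam (n : ℕ) : ℝ := (-1 : ℝ) ^ ArithmeticFunction.cardFactors n

theorem lam_liou (n : ℕ) : ((lam n : ℝ) : ℂ) = Pool.Agent.Y957.VK.liou n := by
  unfold lam Pool.Agent.Y957.VK.liou
  push_cast
  rfl

theorem result (k : ℕ) (a : Fin k → ℕ → ℝ) (M : ℝ) (ha : ∀ i n, |a i n| ≤ M) :
    (∀ᵐ α ∂((volume : Measure (Fin k → ℝ)).restrict {α | ∀ i, 0 < α i}), ∀ K : ℕ,
      Tendsto (fun N : ℕ => (Real.log N) ^ K / N *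
        |∑ n ∈ Finset.Icc 1 N, lam n * ∏ i, lam ⌊α i * (n : ℝ)⌋₊|) atTop (𝓝 0)) ∧
    (∀ᵐ α ∂((volume : Measure (Fin k → ℝ)).restrict {α | ∀ i, 0 < α i}), ∀ K : ℕ,
      Tendsto (fun N : ℕ => (Real.log N) ^ K / N *
        |∑ n ∈ Finset.Icc 1 N, lam n * ∏ i, a i ⌊α i * (n : ℝ)⌋₊|) atTop (𝓝 0)) := by
  have key : ∀ (b : Fin k → ℕ → ℝ) (B : ℝ), (∀ i n, |b i n| ≤ B) →
      ∀ᵐ α ∂((volume : Measure (Fin k → ℝ)).restrict {α | ∀ i, 0 < α i}), ∀ K : ℕ,
      Tendsto (fun N : ℕ => (Real.log N) ^ K / N *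
        |∑ n ∈ Finset.Icc 1 N, lam n * ∏ i, b i ⌊α i * (n : ℝ)⌋₊|) atTop (𝓝 0) := by
    intro b B hb
    have h := Pool.Agent.Y957.VK.seq2_all _ (fun n => (Pool.Agent.Y957.VK.liou_norm n).le)
      Pool.Agent.Y957.VK.neg_liou k (fun i n => ((b i n : ℝ) : ℂ)) B
      (fun i n => by rw [Complex.norm_real]; exact hb i n) (fun _ => 1) (fun _ => one_pos)
    filter_upwards [h] with α hα K
    refine (hα K).congr fun N => ?_
    congr 1
    rw [← Real.norm_eq_abs, ← Complex.norm_real]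
    congr 1
    push_cast
    refine Finset.sum_congr rfl fun n _ => ?_
    rw [lam_liou]
    simp only [Real.rpow_one]
  refine ⟨key (fun _ => lam) 1 fun i n => ?_, key a M ha⟩
  unfold lam
  rw [abs_pow, abs_neg, abs_one, one_pow]

end Pool.Agent.Results.MP_67663b_nt.AlmostEveryTupleCesaro
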